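import Pool.Agent.H17.WH.Link
import Pool.Agent.H17.WH.Limits

/-!
# Section 6: linear domination
-/

set_option autoImplicit false
open Filter Topology

namespace Pool.Agent.H17.WH

variable {X Y : Type*} [NormedAddCommGroup X] [NormedSpace ℝ X]
  [NormedAddCommGroup Y] [NormedSpace ℝ Y]

/-- continuity at a point of an operator with values in a finite product -/
theorem exists_radius {V W : Type*} [NormedAddCommGroup V] [NormedSpace ℝ V]
    [NormedAddCommGroup W] [NormedSpace ℝ W] {k : ℕ} (T : V →L[ℝ] (Fin k → W)) (θ₀ : V)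
    {δ : ℝ} (hδ : 0 < δ) :
    ∃ r : ℝ, 0 < r ∧ ∀ φ : V, ‖φ‖ ≤ r → ∀ j, ‖T (θ₀ + φ) j - T θ₀ j‖ ≤ δ := by
  refine ⟨δ / (‖T‖ + 1), by positivity, fun φ hφ j => ?_⟩
  have h1 : T (θ₀ + φ) j - T θ₀ j = T φ j := by
    rw [map_add, Pi.add_apply, add_sub_cancel_left]
  have hT1 : 0 < ‖T‖ + 1 := by positivity
  rw [h1]
  have h2 : ‖T φ j‖ ≤ ‖T φ‖ := norm_le_pi_norm (T φ) j
  have h3 := T.le_opNorm φ
  have h5 : ‖T‖ * ‖φ‖ ≤ ‖T‖ * (δ / (‖T‖ + 1)) :=
    mul_le_mul_of_nonneg_left hφ (norm_nonneg _)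
  have h6 : ‖T‖ * (δ / (‖T‖ + 1)) ≤ δ := by
    rw [mul_div_assoc', div_le_iff₀ hT1]
    nlinarith
  exact h2.trans (h3.trans (h5.trans h6))

/-- a bound on the unit ball of the dual bounds the norm -/
theorem norm_le_of_dual_unit (x : X) {M : ℝ} (hM : 0 ≤ M)
    (h : ∀ φ : StrongDual ℝ X, ‖φ‖ ≤ 1 → |φ x| ≤ M) : ‖x‖ ≤ M := by
  refine NormedSpace.norm_le_dual_bound ℝ x hM fun f => ?_
  rcases eq_or_ne f 0 with h0 | h0
  · simp [h0]
  · have hn : 0 < ‖f‖ := norm_pos_iff.2 h0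
    have h1 := h (‖f‖⁻¹ • f) (by rw [norm_smul, norm_inv, norm_norm, inv_mul_cancel₀ hn.ne'])
    have h2 : (‖f‖⁻¹ • f) x = ‖f‖⁻¹ * f x := rfl
    rw [h2, abs_mul, abs_of_pos (inv_pos.2 hn), inv_mul_le_iff₀ hn] at h1
    rw [Real.norm_eq_abs]
    linarith [mul_comm M ‖f‖]

/-- a good tuple of a functional near `θ₀`: coefficients with respect to `T φ` -/
theorem Link.coeff {H : Y → X} {k : ℕ} {A : Finset (StrongDual ℝ Y)} {K C : ℝ}
    {Z : Submodule ℝ Y} {O : Set (StrongDual ℝ X)}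
    {E : StrongDual ℝ X → Submodule ℝ (StrongDual ℝ Z)} (hL : Link H k A K C Z O E)
    (T : StrongDual ℝ X →L[ℝ] (Fin k → StrongDual ℝ Z))
    (hT : ∀ ζ ∈ O, LinearIndependent ℝ (T ζ) ∧
      Submodule.span ℝ (Set.range (T ζ)) = E ζ) {φ : StrongDual ℝ X} (hφ : φ ∈ O) :
    ∃ (ξ : Fin k → StrongDual ℝ Y) (x : Fin k → Fin k → ℝ), Good H A K C φ ξ ∧
      ∀ i, ∑ j, x i j • T φ j = res Z (ξ i) := by
  obtain ⟨ξ, hξ⟩ := hL.strict φ
  have hgood : Good H A K (2 * C) φ ξ := by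
    refine ⟨hξ.1, fun y hy hyξ => (hξ.2 y hy hyξ).trans ?_⟩
    have h1 := hL.C_pos
    have h2 := norm_nonneg φ
    nlinarith [mul_nonneg h1.le h2]
  have hspan := hL.good_span φ hφ ξ hgood
  have hmem : ∀ i, ∃ x : Fin k → ℝ, ∑ j, x j • T φ j = res Z (ξ i) := by
    intro i
    have h1 : res Z (ξ i) ∈ Submodule.span ℝ (Set.range (T φ)) := by
      rw [(hT φ hφ).2, ← hspan]
      exact Submodule.subset_span ⟨i, rfl⟩
    exact (Submodule.mem_span_range_iff_exists_fun ℝ).1 h1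
  choose x hx using hmem
  exact ⟨ξ, x, hξ, hx⟩

/-- the key estimate: one functional near `θ₀` -/
theorem Link.key {H : Y → X} {k : ℕ} {A : Finset (StrongDual ℝ Y)} {K C : ℝ}
    {Z : Submodule ℝ Y} {O : Set (StrongDual ℝ X)}
    {E : StrongDual ℝ X → Submodule ℝ (StrongDual ℝ Z)} (hL : Link H k A K C Z O E)
    (T : StrongDual ℝ X →L[ℝ] (Fin k → StrongDual ℝ Z))
    (hT : ∀ ζ ∈ O, LinearIndependent ℝ (T ζ) ∧
      Submodule.span ℝ (Set.range (T ζ)) = E ζ)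
    (N : Fin k → (Z →L[ℝ] X)) (hN : ∀ (φ : StrongDual ℝ X) (j : Fin k) (z : Z),
      φ (N j z) = T φ j z)
    {θ₀ φ' : StrongDual ℝ X} {s c η₀ : ℝ} (hs : 0 ≤ s) (hc : 0 < c)
    (hφO : θ₀ + s • φ' ∈ O) (hφ' : ‖φ'‖ ≤ 1)
    (hlow : ∀ x : Fin k → ℝ, c * ‖x‖ ≤ ‖∑ j, x j • T (θ₀ + s • φ') j‖)
    (hη : K * η₀ ≤ 1 / 2) (hηA : ∀ l ∈ A, ‖l‖ * η₀ ≤ 1)
    {v : Y} (hv : ‖v‖ ≤ η₀) (z : Z) (hz : ∀ j, T θ₀ j z = 0)
    (hsz : s * (K / c) * ∑ j, ‖N j z‖ ≤ 1 / 2) :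
    |(θ₀ + s • φ') (H (v + (z : Y)))| ≤ C * ‖θ₀ + s • φ'‖ := by
  obtain ⟨ξ, x, hξ, hx⟩ := hL.coeff T hT hφO
  have hK := hL.K_pos
  refine hξ.2 _ ?_ ?_
  · intro l hl
    have h1 : l (z : Y) = 0 := hL.Z_le z.2 l hl
    rw [map_add, h1, add_zero]
    have h2 := l.le_opNorm v
    rw [Real.norm_eq_abs] at h2
    refine h2.trans (le_trans ?_ (hηA l hl))
    exact mul_le_mul_of_nonneg_left hv (norm_nonneg _)
  · intro i
    have hxi : ‖x i‖ ≤ K / c := by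
      rw [le_div_iff₀ hc]
      have h1 := hlow (x i)
      rw [hx i] at h1
      have h2 := (norm_res_le Z (ξ i)).trans (hξ.1 i)
      linarith [mul_comm ‖x i‖ c]
    have hz2 : ξ i (z : Y) = ∑ j, x i j * (s * φ' (N j z)) := by
      have h1 : res Z (ξ i) z = ξ i (z : Y) := rfl
      rw [← h1, ← hx i, sum_apply]
      refine Finset.sum_congr rfl fun j _ => ?_
      have h2 : (x i j • T (θ₀ + s • φ') j) z = x i j * (T (θ₀ + s • φ') j) z := rfl
      have h3 : T (θ₀ + s • φ') j z = T θ₀ j z + s * T φ' j z := by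
        rw [map_add, map_smul]
        rfl
      rw [h2, h3, hz j, zero_add, hN]
    have hz3 : |ξ i (z : Y)| ≤ s * (K / c) * ∑ j, ‖N j z‖ := by
      rw [hz2, Finset.mul_sum]
      refine (Finset.abs_sum_le_sum_abs _ _).trans (Finset.sum_le_sum fun j _ => ?_)
      rw [abs_mul, abs_mul, abs_of_nonneg hs]
      have h1 : |x i j| ≤ K / c := (norm_le_pi_norm (x i) j).trans hxi
      have h2 : |φ' (N j z)| ≤ ‖N j z‖ := by
        have h3 := φ'.le_opNorm (N j z)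
        rw [Real.norm_eq_abs] at h3
        refine h3.trans ?_
        have := norm_nonneg (N j z)
        nlinarith
      have h4 : 0 ≤ K / c := by positivity
      calc |x i j| * (s * |φ' (N j z)|) ≤ (K / c) * (s * ‖N j z‖) :=
            mul_le_mul h1 (mul_le_mul_of_nonneg_left h2 hs) (by positivity) h4
        _ = s * (K / c) * ‖N j z‖ := by ring
    have hv2 : |ξ i v| ≤ K * η₀ := by
      have h3 := (ξ i).le_opNorm v
      rw [Real.norm_eq_abs] at h3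
      exact h3.trans (mul_le_mul (hξ.1 i) hv (norm_nonneg _) hK.le)
    rw [map_add]
    have := abs_add_le (ξ i v) (ξ i (z : Y))
    linarith

/-- Section 6: the linear domination (LD). -/
theorem Link.ld {H : Y → X} {k : ℕ} {A : Finset (StrongDual ℝ Y)} {K C : ℝ}
    {Z : Submodule ℝ Y} {O : Set (StrongDual ℝ X)}
    {E : StrongDual ℝ X → Submodule ℝ (StrongDual ℝ Z)} (hL : Link H k A K C Z O E)
    (T : StrongDual ℝ X →L[ℝ] (Fin k → StrongDual ℝ Z))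
    (hT : ∀ ζ ∈ O, LinearIndependent ℝ (T ζ) ∧
      Submodule.span ℝ (Set.range (T ζ)) = E ζ)
    (N : Fin k → (Z →L[ℝ] X)) (hN : ∀ (φ : StrongDual ℝ X) (j : Fin k) (z : Z),
      φ (N j z) = T φ j z) :
    ∃ (B2 : Finset (StrongDual ℝ Y)) (hle : perp B2 ≤ Z) (η₀ C2 : ℝ), 0 < η₀ ∧ 0 < C2 ∧
      ∀ c : Y, ‖c‖ ≤ η₀ → ∀ (y : Y) (hy : y ∈ perp B2),
        ‖H (c + y)‖ ≤ C2 * (1 + ∑ j, ‖N j ⟨y, hle hy⟩‖) := by
  classical
  obtain ⟨θ₀, hθ₀⟩ := hL.fam.nonempty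
  obtain ⟨c, hc, δ, hδ, hlow⟩ := exists_lower_near_dual Z (hT θ₀ hθ₀).1
  obtain ⟨r1, hr1, hball⟩ := Metric.isOpen_iff.1 hL.fam.isOpen θ₀ hθ₀
  have hK := hL.K_pos
  have hC := hL.C_pos
  obtain ⟨r2, hr2, hcont⟩ := exists_radius (V := StrongDual ℝ X) (W := StrongDual ℝ Z) T θ₀ hδ
  set r : ℝ := min (r1 / 2) r2 with hr
  have hrpos : 0 < r := lt_min (by positivity) hr2
  -- the finite set `B2`
  obtain ⟨B, hB⟩ := hL.Z_perp
  have hext : ∀ j : Fin k, ∃ f : StrongDual ℝ Y, ∀ z : Z, f (z : Y) = T θ₀ j z := by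
    intro j
    obtain ⟨f, hf, -⟩ := exists_extension_norm_eq Z (T θ₀ j)
    exact ⟨f, hf⟩
  choose ext hext using hext
  set B2 : Finset (StrongDual ℝ Y) := B ∪ Finset.univ.image ext with hB2
  have hle : perp B2 ≤ Z := by
    rw [hB]
    exact perp_anti Finset.subset_union_left
  have hzero : ∀ (y : Y) (hy : y ∈ perp B2) (j : Fin k), T θ₀ j ⟨y, hle hy⟩ = 0 := by
    intro y hy j
    rw [← hext j]
    exact hy (ext j) (Finset.mem_union_right _ (Finset.mem_image_of_mem _ (Finset.mem_univ j)))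
  -- the radius `η₀`
  set M := ∑ l ∈ A, ‖l‖ with hM
  have hM0 : 0 ≤ M := Finset.sum_nonneg fun l _ => norm_nonneg _
  set η₀ : ℝ := min (1 / (2 * K)) (1 / (M + 1)) with hη₀
  have hη₀pos : 0 < η₀ := lt_min (by positivity) (by positivity)
  have hη1 : K * η₀ ≤ 1 / 2 := by
    have h1 : η₀ ≤ 1 / (2 * K) := min_le_left _ _
    calc K * η₀ ≤ K * (1 / (2 * K)) := mul_le_mul_of_nonneg_left h1 hK.le
      _ = 1 / 2 := by field_simp
  have hηA : ∀ l ∈ A, ‖l‖ * η₀ ≤ 1 := by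
    intro l hl
    have h1 : η₀ ≤ 1 / (M + 1) := min_le_right _ _
    have h2 : ‖l‖ ≤ M := Finset.single_le_sum (f := fun l : StrongDual ℝ Y => ‖l‖)
      (fun l _ => norm_nonneg _) hl
    calc ‖l‖ * η₀ ≤ M * (1 / (M + 1)) :=
          mul_le_mul h2 h1 hη₀pos.le hM0
      _ ≤ 1 := by
        rw [mul_one_div, div_le_one (by positivity)]
        linarith
  set C2 : ℝ := C * (2 * ‖θ₀‖ + r + 1) * (1 / r + 2 * K / c) with hC2
  have hC2pos : 0 < C2 := by positivity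
  refine ⟨B2, hle, η₀, C2, hη₀pos, hC2pos, ?_⟩
  intro v hv y hy
  set z : Z := ⟨y, hle hy⟩ with hz
  set S : ℝ := ∑ j, ‖N j z‖ with hS
  have hS0 : 0 ≤ S := Finset.sum_nonneg fun j _ => norm_nonneg _
  have hyz : (z : Y) = y := rfl
  set s : ℝ := 1 / (1 / r + 2 * K / c * S) with hs
  have hden : 0 < 1 / r + 2 * K / c * S := by positivity
  have hspos : 0 < s := by positivity
  have hsr : s ≤ r := by
    rw [hs, div_le_iff₀ hden]
    have h1 : r * (1 / r) = 1 := by field_simp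
    have h2 : 0 ≤ r * (2 * K / c * S) := by positivity
    nlinarith
  have hsz : s * (K / c) * S ≤ 1 / 2 := by
    have h1 : s * (1 / r + 2 * K / c * S) = 1 := by
      rw [hs]
      field_simp
    have h2 : 0 ≤ s * (1 / r) := by positivity
    have h3 : s * (2 * K / c * S) = 2 * (s * (K / c) * S) := by ring
    nlinarith
  -- functionals near `θ₀`
  have hnear : ∀ (φ' : StrongDual ℝ X) (t : ℝ), ‖φ'‖ ≤ 1 → 0 ≤ t → t ≤ r →
      θ₀ + t • φ' ∈ O ∧
      ∀ x : Fin k → ℝ, c * ‖x‖ ≤ ‖∑ j, x j • T (θ₀ + t • φ') j‖ := by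
    intro φ' t hφ' ht0 htr
    have hn : ‖t • φ'‖ ≤ r := by
      rw [norm_smul, Real.norm_eq_abs, abs_of_nonneg ht0]
      have := norm_nonneg φ'
      nlinarith
    refine ⟨hball ?_, hlow _ fun j => ?_⟩
    · rw [Metric.mem_ball, dist_eq_norm, add_sub_cancel_left]
      have h1 : r ≤ r1 / 2 := min_le_left _ _
      linarith
    · exact hcont (t • φ') (hn.trans (min_le_right _ _)) j
  have hbase : |θ₀ (H (v + y))| ≤ C * ‖θ₀‖ := by
    obtain ⟨h1, h2⟩ := hnear 0 0 (by simp) le_rfl hrpos.le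
    have h3 := hL.key T hT N hN (s := 0) (φ' := 0) le_rfl hc h1 (by simp) h2 hη1 hηA hv z
      (hzero y hy) (by simp)
    simpa using h3
  refine norm_le_of_dual_unit _ (by positivity) fun φ' hφ' => ?_
  obtain ⟨h1, h2⟩ := hnear φ' s hφ' hspos.le hsr
  have h3 := hL.key T hT N hN hspos.le hc h1 hφ' h2 hη1 hηA hv z (hzero y hy) hsz
  have h4 : (θ₀ + s • φ') (H (v + (z : Y))) = θ₀ (H (v + y)) + s * φ' (H (v + y)) := rfl
  rw [h4] at h3
  have h5 : ‖θ₀ + s • φ'‖ ≤ ‖θ₀‖ + r := by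
    refine (norm_add_le _ _).trans ?_
    rw [norm_smul, Real.norm_eq_abs, abs_of_pos hspos]
    have := norm_nonneg φ'
    nlinarith
  have h6 : s * |φ' (H (v + y))| ≤ C * (2 * ‖θ₀‖ + r) := by
    have e1 : s * |φ' (H (v + y))| = |s * φ' (H (v + y))| := by
      rw [abs_mul, abs_of_pos hspos]
    have e2 : |s * φ' (H (v + y))| ≤ |θ₀ (H (v + y)) + s * φ' (H (v + y))| +
        |θ₀ (H (v + y))| := by
      have := abs_sub (θ₀ (H (v + y)) + s * φ' (H (v + y))) (θ₀ (H (v + y)))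
      rwa [add_sub_cancel_left] at this
    have e3 : C * ‖θ₀ + s • φ'‖ ≤ C * (‖θ₀‖ + r) := mul_le_mul_of_nonneg_left h5 hC.le
    rw [e1]
    nlinarith
  have h7 : |φ' (H (v + y))| ≤ C * (2 * ‖θ₀‖ + r) * (1 / r + 2 * K / c * S) := by
    have e1 : s * (1 / r + 2 * K / c * S) = 1 := by
      rw [hs]
      field_simp
    have e2 : |φ' (H (v + y))| = (s * |φ' (H (v + y))|) * (1 / r + 2 * K / c * S) := by
      calc |φ' (H (v + y))| = |φ' (H (v + y))| * (s * (1 / r + 2 * K / c * S)) := by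
            rw [e1, mul_one]
        _ = _ := by ring
    rw [e2]
    exact mul_le_mul_of_nonneg_right h6 hden.le
  refine h7.trans ?_
  have h8 : 1 / r + 2 * K / c * S ≤ (1 / r + 2 * K / c) * (1 + S) := by
    have e1 : 0 ≤ 1 / r * S := by positivity
    have e2 : 0 ≤ 2 * K / c := by positivity
    nlinarith
  rw [hC2]
  have h9 : C * (2 * ‖θ₀‖ + r) ≤ C * (2 * ‖θ₀‖ + r + 1) := by nlinarith
  calc C * (2 * ‖θ₀‖ + r) * (1 / r + 2 * K / c * S)
      ≤ C * (2 * ‖θ₀‖ + r + 1) * ((1 / r + 2 * K / c) * (1 + S)) :=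
        mul_le_mul h9 h8 hden.le (by positivity)
    _ = _ := by ring

end Pool.Agent.H17.WH
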